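import Mathlib

/-!
# MP_3aeeeb_co: a unicyclic graph of girth four, neither a cycle nor a tadpole, all of whose
matrices have the Strong Spectral Property

The graph `exG` on eight vertices is the 4-cycle `0-1-2-3-0` with the pendant edge `1-4` and the
pendant path `2-5-6-7` (pendant paths of lengths one and three at adjacent cycle vertices).
-/

set_option autoImplicit false

set_option linter.unusedSimpArgs false

namespace Pool.Agent.Results.MP_3aeeeb_co.UnicyclicSSP

open scoped Matrix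

/-- `A ∈ S(G)`: `A` is symmetric and, off the diagonal, nonzero exactly on the edges of `G`. -/
def InS {V : Type} (G : SimpleGraph V) (A : Matrix V V ℝ) : Prop :=
  A.IsSymm ∧ ∀ i j, i ≠ j → (A i j ≠ 0 ↔ G.Adj i j)

/-- The Strong Spectral Property of a real matrix. -/
def HasSSP {V : Type} [Fintype V] [DecidableEq V] (A : Matrix V V ℝ) : Prop :=
  ∀ X : Matrix V V ℝ, X.IsSymm → A ⊙ X = 0 → (1 : Matrix V V ℝ) ⊙ X = 0 →
    A * X - X * A = 0 → X = 0

/-- The class `G^SSP`: every matrix of `S(G)` has the SSP. -/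
def GSSP {V : Type} [Fintype V] [DecidableEq V] (G : SimpleGraph V) : Prop :=
  ∀ A : Matrix V V ℝ, InS G A → HasSSP A

/-- A connected graph with exactly one cycle: there is a closed walk that is a cycle, and every
closed walk that is a cycle has the same edges. -/
def Unicyclic {V : Type} (G : SimpleGraph V) : Prop :=
  G.Connected ∧ ∃ (u : V) (c : G.Walk u u), c.IsCycle ∧
    ∀ (v : V) (d : G.Walk v v), d.IsCycle → ∀ e, e ∈ d.edges ↔ e ∈ c.edges

/-- The tadpole graph `T_{m,n}` (for `m ≥ 3`): the path `0, 1, ..., m+n-1` together with the edge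
joining `0` and `m-1`; that is, the cycle `0, ..., m-1` with the pendant path `m, ..., m+n-1`
attached at `m-1`. -/
def tadpole (m n : ℕ) : SimpleGraph (Fin (m + n)) :=
  SimpleGraph.fromRel (fun i j => j.val = i.val + 1 ∨ (i.val = 0 ∧ j.val + 1 = m))

/-- The eight edges of the example. -/
def exRel (i j : Fin 8) : Bool :=
  (i, j) ∈ [((0 : Fin 8), (1 : Fin 8)), (1, 2), (2, 3), (3, 0), (1, 4), (2, 5), (5, 6), (6, 7)]

/-- The example: the 4-cycle `0-1-2-3-0`, the pendant edge `1-4` and the pendant path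
`2-5-6-7`. -/
def exG : SimpleGraph (Fin 8) where
  Adj i j := exRel i j = true ∨ exRel j i = true
  symm := ⟨fun _ _ h => h.symm⟩
  loopless := ⟨by decide⟩

instance : DecidableRel exG.Adj := fun i j =>
  inferInstanceAs (Decidable (exRel i j = true ∨ exRel j i = true))

private lemma core
   (A1 A2 A3 B1 B2 B3 B4 B5 l1 l2 r1 r2 r3 r4 al be : ℝ)
   (hl2 : l2 ≠ 0) (hr1 : r1 ≠ 0) (hr2 : r2 ≠ 0) (hr3 : r3 ≠ 0) (hr4 : r4 ≠ 0)
   (hal : al ≠ 0) (hbe : be ≠ 0)
   (U13 W13 W14 W15 W24 W25 W35 Z12 Z13 Z14 Z15 Z21 Z23 Z24 Z25 Z31 Z32 Z33 Z34 Z35 : ℝ)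
   (Ebc : al * Z21 - be * Z12 - l2 * U13 = 0)
   (Ebp : (A1 - A3) * U13 + al * Z31 = 0)
   (Ecp : l1 * U13 + be * Z32 = 0)
   (R12 : - r2 * W13 + al * Z12 - be * Z21 = 0)
   (R13 : B1 * W13 - (W13 * B3 + W14 * r3) + al * Z13 = 0)
   (R14 : B1 * W14 + r1 * W24 - (W13 * r3 + W14 * B4 + W15 * r4) + al * Z14 = 0)
   (R15 : B1 * W15 + r1 * W25 - (W14 * r4 + W15 * B5) + al * Z15 = 0)
   (R23 : r1 * W13 - W24 * r3 + be * Z23 = 0)
   (R24 : r1 * W14 + B2 * W24 - (W24 * B4 + W25 * r4) + be * Z24 = 0)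
   (R25 : r1 * W15 + B2 * W25 + r2 * W35 - (W24 * r4 + W25 * B5) + be * Z25 = 0)
   (R34 : r2 * W24 - W35 * r4 = 0)
   (R35 : r2 * W25 + B3 * W35 - W35 * B5 = 0)
   (R45 : r3 * W35 = 0)
   (M11 : l1 * Z21 - Z12 * r1 = 0)
   (M12 : A1 * Z12 - (Z12 * B2 + Z13 * r2) = 0)
   (M13 : A1 * Z13 + l1 * Z23 - (Z12 * r2 + Z13 * B3 + Z14 * r3) + al * W13 = 0)
   (M14 : A1 * Z14 + l1 * Z24 - (Z13 * r3 + Z14 * B4 + Z15 * r4) + al * W14 = 0)
   (M15 : A1 * Z15 + l1 * Z25 - (Z14 * r4 + Z15 * B5) + al * W15 = 0)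
   (M21 : A2 * Z21 + l2 * Z31 - Z21 * B1 = 0)
   (M22 : l1 * Z12 + l2 * Z32 - (Z21 * r1 + Z23 * r2) = 0)
   (M23 : l1 * Z13 + A2 * Z23 + l2 * Z33 - (Z23 * B3 + Z24 * r3) = 0)
   (M24 : l1 * Z14 + A2 * Z24 + l2 * Z34 - (Z23 * r3 + Z24 * B4 + Z25 * r4) + be * W24 = 0)
   (M25 : l1 * Z15 + A2 * Z25 + l2 * Z35 - (Z24 * r4 + Z25 * B5) + be * W25 = 0)
   (M31 : l2 * Z21 + A3 * Z31 - (Z31 * B1 + Z32 * r1) - al * U13 = 0)
   (M32 : A3 * Z32 - (Z31 * r1 + Z32 * B2 + Z33 * r2) = 0)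
   (M33 : l2 * Z23 + A3 * Z33 - (Z32 * r2 + Z33 * B3 + Z34 * r3) = 0)
   (M34 : l2 * Z24 + A3 * Z34 - (Z33 * r3 + Z34 * B4 + Z35 * r4) = 0)
   (M35 : l2 * Z25 + A3 * Z35 - (Z34 * r4 + Z35 * B5) = 0) :
   U13 = 0 ∧ W13 = 0 ∧ W14 = 0 ∧ W15 = 0 ∧ W24 = 0 ∧ W25 = 0 ∧ W35 = 0 ∧ Z12 = 0 ∧ Z13 = 0 ∧
   Z14 = 0 ∧ Z15 = 0 ∧ Z21 = 0 ∧ Z23 = 0 ∧ Z24 = 0 ∧ Z25 = 0 ∧ Z31 = 0 ∧ Z32 = 0 ∧ Z33 = 0 ∧
   Z34 = 0 ∧ Z35 = 0 := by
  have W35z : W35 = 0 := by simpa [hr3] using R45
  subst W35z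
  have W24z : W24 = 0 := by simpa [hr2] using R34
  subst W24z
  have W25z : W25 = 0 := by simpa [hr2] using R35
  subst W25z
  -- the first row of W in terms of Z2*
  -- (I)
  have I2 : r1 * al * Z12 = be * (r1 * Z21 - r2 * Z23) := by
    linear_combination r1 * R12 + r2 * R23
  have I3 : r1 * al * Z13 = -be * ((B3 - B1) * Z23 + r3 * Z24) := by
    linear_combination r1 * R13 + (B3 - B1) * R23 + r3 * R24
  have I4 : r1 * al * Z14 = -be * (r3 * Z23 + (B4 - B1) * Z24 + r4 * Z25) := by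
    linear_combination r1 * R14 + r3 * R23 + (B4 - B1) * R24 + r4 * R25
  have I5 : r1 * al * Z15 = -be * (r4 * Z24 + (B5 - B1) * Z25) := by
    linear_combination r1 * R15 + r4 * R24 + (B5 - B1) * R25
  -- (II)
  have II3 : r1 * (r2 * Z12 + (B3 - A1) * Z13 + r3 * Z14) = (l1 * r1 - al * be) * Z23 := by
    linear_combination -r1 * M13 + al * R23
  have II4 : r1 * (r3 * Z13 + (B4 - A1) * Z14 + r4 * Z15) = (l1 * r1 - al * be) * Z24 := by
    linear_combination -r1 * M14 + al * R24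
  have II5 : r1 * (r4 * Z14 + (B5 - A1) * Z15) = (l1 * r1 - al * be) * Z25 := by
    linear_combination -r1 * M15 + al * R25
  have II2 : r1 * ((B2 - A1) * Z12 + r2 * Z13) = 0 := by
    linear_combination -r1 * M12
  -- key
  have V13 : be * (r2 * (r1 * Z21 + r2 * Z23) + (B3 - A1) * ((B3 - B1) * Z23 + r3 * Z24)
      + r3 * (r3 * Z23 + (B4 - B1) * Z24 + r4 * Z25)) + al * (l1 * r1 - al * be) * Z23
      = 2 * be * r1 * r2 * Z21 := by
    linear_combination -al * II3 + r2 * I2 + (B3 - A1) * I3 + r3 * I4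
  have V14 : be * (r3 * ((B3 - B1) * Z23 + r3 * Z24)
      + (B4 - A1) * (r3 * Z23 + (B4 - B1) * Z24 + r4 * Z25)
      + r4 * (r4 * Z24 + (B5 - B1) * Z25)) + al * (l1 * r1 - al * be) * Z24 = 0 := by
    linear_combination -al * II4 + r3 * I3 + (B4 - A1) * I4 + r4 * I5
  have V15 : be * (r4 * (r3 * Z23 + (B4 - B1) * Z24 + r4 * Z25)
      + (B5 - A1) * (r4 * Z24 + (B5 - B1) * Z25)) + al * (l1 * r1 - al * be) * Z25 = 0 := by
    linear_combination -al * II5 + r4 * I4 + (B5 - A1) * I5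
  have V23 : al * r1 * ((r2 * (r1 * Z21 + r2 * Z23) + (B3 - A3) * ((B3 - A2) * Z23 + r3 * Z24)
      + r3 * (r3 * Z23 + (B4 - A2) * Z24 + r4 * Z25)) - l2 ^ 2 * Z23)
      + l1 * be * (r2 * (r1 * Z21 + r2 * Z23) + (B3 - A3) * ((B3 - B1) * Z23 + r3 * Z24)
      + r3 * (r3 * Z23 + (B4 - B1) * Z24 + r4 * Z25)) = 2 * l1 * be * r1 * r2 * Z21 := by
    linear_combination -al * r1 * l2 * M33 - al * r1 * (r2 * M22 + (B3 - A3) * M23 + r3 * M24)
      + l1 * (r2 * I2 + (B3 - A3) * I3 + r3 * I4)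
  have V24 : al * r1 * ((r3 * ((B3 - A2) * Z23 + r3 * Z24)
      + (B4 - A3) * (r3 * Z23 + (B4 - A2) * Z24 + r4 * Z25)
      + r4 * (r4 * Z24 + (B5 - A2) * Z25)) - l2 ^ 2 * Z24)
      + l1 * be * (r3 * ((B3 - B1) * Z23 + r3 * Z24)
      + (B4 - A3) * (r3 * Z23 + (B4 - B1) * Z24 + r4 * Z25)
      + r4 * (r4 * Z24 + (B5 - B1) * Z25)) = 0 := by
    linear_combination -al * r1 * l2 * M34 - al * r1 * (r3 * M23 + (B4 - A3) * M24 + r4 * M25)
      + l1 * (r3 * I3 + (B4 - A3) * I4 + r4 * I5)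
  have V25 : al * r1 * ((r4 * (r3 * Z23 + (B4 - A2) * Z24 + r4 * Z25)
      + (B5 - A3) * (r4 * Z24 + (B5 - A2) * Z25)) - l2 ^ 2 * Z25)
      + l1 * be * (r4 * (r3 * Z23 + (B4 - B1) * Z24 + r4 * Z25)
      + (B5 - A3) * (r4 * Z24 + (B5 - B1) * Z25)) = 0 := by
    linear_combination -al * r1 * l2 * M35 - al * r1 * (r4 * M24 + (B5 - A3) * M25)
      + l1 * (r4 * I4 + (B5 - A3) * I5)
  have key : 2 * al * be * r1 ^ 2 * r2 * r3 * r4 * Z21 = 0 := by
    linear_combination -((al * r1 + l1 * be) * r3 * r4) * V13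
      - (al * r1 * r4 * (B4 + B5 - A2 - A3) + l1 * be * r4 * (B4 + B5 - A3 - B1)) * V14
      - (al * r1 * (r4 ^ 2 + (B5 - A3) * (B5 - A2) - l2 ^ 2)
          + l1 * be * (r4 ^ 2 + (B5 - A3) * (B5 - B1))) * V15
      + (be * r3 * r4) * V23 + (be * r4 * (B4 + B5 - A1 - B1)) * V24
      + (be * (r4 ^ 2 + (B5 - A1) * (B5 - B1)) + al * (l1 * r1 - al * be)) * V25
  have Z21z : Z21 = 0 := by
    simpa [hr1, hr2, hr3, hr4, hal, hbe] using key
  subst Z21z
  have Z12z : Z12 = 0 := by simpa [hr1] using M11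
  subst Z12z
  have U13z : U13 = 0 := by simpa [hl2] using Ebc
  subst U13z
  have W13z : W13 = 0 := by simpa [hr2] using R12
  subst W13z
  have Z32z : Z32 = 0 := by simpa [hbe] using Ecp
  subst Z32z
  have Z31z : Z31 = 0 := by simpa [hal] using Ebp
  subst Z31z
  have Z23z : Z23 = 0 := by simpa [hbe] using R23
  subst Z23z
  have Z13z : Z13 = 0 := by simpa [hr2] using M12
  subst Z13z
  have Z14z : Z14 = 0 := by simpa [hr3] using M13
  subst Z14z
  have Z33z : Z33 = 0 := by simpa [hr2] using M32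
  subst Z33z
  have Z24z : Z24 = 0 := by simpa [hr3] using M23
  subst Z24z
  have W14z : W14 = 0 := by simpa [hr1] using R24
  subst W14z
  have Z15z : Z15 = 0 := by simpa [hr4] using M14
  subst Z15z
  have Z34z : Z34 = 0 := by simpa [hr3] using M33
  subst Z34z
  have Z25z : Z25 = 0 := by simpa [hr4] using M24
  subst Z25z
  have Z35z : Z35 = 0 := by simpa [hr4] using M34
  subst Z35z
  have W15z : W15 = 0 := by simpa [hr1] using R25
  subst W15z
  simp

theorem exG_gssp : GSSP exG := by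
  intro A hA X hX hAX hIX hcomm
  obtain ⟨hAs, hA2⟩ := hA
  have hX0 : ∀ i j, exG.Adj i j → X i j = 0 := by
    intro i j hij
    have h1 : A i j * X i j = 0 := by
      have := congrFun (congrFun hAX i) j
      simpa [Matrix.hadamard_apply] using this
    have h2 : A i j ≠ 0 := (hA2 i j hij.ne).2 hij
    simpa [h2] using h1
  have hXd : ∀ i, X i i = 0 := by
    intro i
    have := congrFun (congrFun hIX i) i
    simpa [Matrix.hadamard_apply] using this
  have hXs : ∀ i j, X j i = X i j := fun i j => congrFun (congrFun hX i) j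
  have hAss : ∀ i j, A j i = A i j := fun i j => congrFun (congrFun hAs i) j
  have hA0 : ∀ i j, i ≠ j → ¬ exG.Adj i j → A i j = 0 := by
    intro i j hij hn
    by_contra h
    exact hn ((hA2 i j hij).1 h)
  have hA1 : ∀ i j, exG.Adj i j → A i j ≠ 0 := fun i j h => (hA2 i j h.ne).2 h
  have hc : ∀ i j, (∑ k, A i k * X k j) - ∑ k, X i k * A k j = 0 := by
    intro i j
    have := congrFun (congrFun hcomm i) j
    simpa [Matrix.sub_apply, Matrix.mul_apply] using this
  -- zero entries of `A`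
  have a02 := hA0 0 2 (by decide) (by decide)
  have a04 := hA0 0 4 (by decide) (by decide)
  have a05 := hA0 0 5 (by decide) (by decide)
  have a06 := hA0 0 6 (by decide) (by decide)
  have a07 := hA0 0 7 (by decide) (by decide)
  have a13 := hA0 1 3 (by decide) (by decide)
  have a15 := hA0 1 5 (by decide) (by decide)
  have a16 := hA0 1 6 (by decide) (by decide)
  have a17 := hA0 1 7 (by decide) (by decide)
  have a24 := hA0 2 4 (by decide) (by decide)
  have a26 := hA0 2 6 (by decide) (by decide)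
  have a27 := hA0 2 7 (by decide) (by decide)
  have a34 := hA0 3 4 (by decide) (by decide)
  have a35 := hA0 3 5 (by decide) (by decide)
  have a36 := hA0 3 6 (by decide) (by decide)
  have a37 := hA0 3 7 (by decide) (by decide)
  have a45 := hA0 4 5 (by decide) (by decide)
  have a46 := hA0 4 6 (by decide) (by decide)
  have a47 := hA0 4 7 (by decide) (by decide)
  have a57 := hA0 5 7 (by decide) (by decide)
  -- zero entries of `X`
  have x01 := hX0 0 1 (by decide)
  have x12 := hX0 1 2 (by decide)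
  have x23 := hX0 2 3 (by decide)
  have x03 := hX0 0 3 (by decide)
  have x14 := hX0 1 4 (by decide)
  have x25 := hX0 2 5 (by decide)
  have x56 := hX0 5 6 (by decide)
  have x67 := hX0 6 7 (by decide)
  have d0 := hXd 0
  have d1 := hXd 1
  have d2 := hXd 2
  have d3 := hXd 3
  have d4 := hXd 4
  have d5 := hXd 5
  have d6 := hXd 6
  have d7 := hXd 7
  have H := core (A 0 0) (A 1 1) (A 4 4) (A 3 3) (A 2 2) (A 5 5) (A 6 6) (A 7 7)
    (A 0 1) (A 1 4) (A 2 3) (A 2 5) (A 5 6) (A 6 7) (A 0 3) (A 1 2)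
    (hA1 1 4 (by decide)) (hA1 2 3 (by decide)) (hA1 2 5 (by decide))
    (hA1 5 6 (by decide)) (hA1 6 7 (by decide)) (hA1 0 3 (by decide)) (hA1 1 2 (by decide))
    (X 0 4) (X 3 5) (X 3 6) (X 3 7) (X 2 6) (X 2 7) (X 5 7)
    (X 0 2) (X 0 5) (X 0 6) (X 0 7) (X 1 3) (X 1 5) (X 1 6) (X 1 7)
    (X 3 4) (X 2 4) (X 4 5) (X 4 6) (X 4 7)
  simp only [Fin.sum_univ_eight] at hc
  have e0 := hc 0 1
  have e1 := hc 0 4
  have e2 := hc 1 4
  have e3 := hc 3 2
  have e4 := hc 3 5
  have e5 := hc 3 6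
  have e6 := hc 3 7
  have e7 := hc 2 5
  have e8 := hc 2 6
  have e9 := hc 2 7
  have e10 := hc 5 6
  have e11 := hc 5 7
  have e12 := hc 6 7
  have e13 := hc 0 3
  have e14 := hc 0 2
  have e15 := hc 0 5
  have e16 := hc 0 6
  have e17 := hc 0 7
  have e18 := hc 1 3
  have e19 := hc 1 2
  have e20 := hc 1 5
  have e21 := hc 1 6
  have e22 := hc 1 7
  have e23 := hc 4 3
  have e24 := hc 4 2
  have e25 := hc 4 5
  have e26 := hc 4 6
  have e27 := hc 4 7
  simp only [hAss 0 1, hXs 0 1, hAss 0 2, hXs 0 2, hAss 0 3, hXs 0 3, hAss 0 4, hXs 0 4, hAss 0 5, hXs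
    0 5, hAss 0 6, hXs 0 6, hAss 0 7, hXs 0 7, hAss 1 2, hXs 1 2, hAss 1 3, hXs 1 3, hAss 1 4,
    hXs 1 4, hAss 1 5, hXs 1 5, hAss 1 6, hXs 1 6, hAss 1 7, hXs 1 7, hAss 2 3, hXs 2 3, hAss
    2 4, hXs 2 4, hAss 2 5, hXs 2 5, hAss 2 6, hXs 2 6, hAss 2 7, hXs 2 7, hAss 3 4, hXs 3 4,
    hAss 3 5, hXs 3 5, hAss 3 6, hXs 3 6, hAss 3 7, hXs 3 7, hAss 4 5, hXs 4 5, hAss 4 6, hXs
    4 6, hAss 4 7, hXs 4 7, hAss 5 6, hXs 5 6, hAss 5 7, hXs 5 7, hAss 6 7, hXs 6 7, x01, a02,
    x03, a04, a05, a06, a07, x12, a13, x14, a15, a16, a17, x23, a24, x25, a26, a27, a34, a35,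
    a36, a37, a45, a46, a47, x56, a57, x67, d0, d1, d2, d3, d4, d5, d6, d7] at e0 e1 e2 e3 e4 e5 e6 e7 e8 e9 e10 e11 e12 e13 e14 e15 e16 e17 e18 e19 e20 e21 e22 e23 e24 e25 e26 e27
  obtain ⟨h1, h2, h3, h4, h5, h6, h7, h8, h9, h10, h11, h12, h13, h14, h15, h16, h17, h18, h19,
    h20⟩ := H (by linear_combination e0) (by linear_combination e1) (by linear_combination e2) (by linear_combination e3)
    (by linear_combination e4) (by linear_combination e5) (by linear_combination e6) (by linear_combination e7)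
    (by linear_combination e8) (by linear_combination e9) (by linear_combination e10) (by linear_combination e11)
    (by linear_combination e12) (by linear_combination e13) (by linear_combination e14) (by linear_combination e15)
    (by linear_combination e16) (by linear_combination e17) (by linear_combination e18) (by linear_combination e19)
    (by linear_combination e20) (by linear_combination e21) (by linear_combination e22) (by linear_combination e23)
    (by linear_combination e24) (by linear_combination e25) (by linear_combination e26) (by linear_combination e27)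
   
  ext i j
  fin_cases i <;> fin_cases j <;>
    simp [hXs 0 1, hXs 0 2, hXs 0 3, hXs 0 4, hXs 0 5, hXs 0 6, hXs 0 7, hXs 1 2, hXs 1 3, hXs 1 4,
      hXs 1 5, hXs 1 6, hXs 1 7, hXs 2 3, hXs 2 4, hXs 2 5, hXs 2 6, hXs 2 7, hXs 3 4, hXs 3 5,
      hXs 3 6, hXs 3 7, hXs 4 5, hXs 4 6, hXs 4 7, hXs 5 6, hXs 5 7, hXs 6 7, h1, h2, h3, h4, h5,
      h6, h7, h8, h9, h10, h11, h12, h13, h14, h15, h16, h17, h18, h19, h20, x01, x12, x23, x03,
      x14, x25, x56, x67, d0, d1, d2, d3, d4, d5, d6, d7]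


/-! ### The graph -/

theorem exG_connected : exG.Connected := by
  have hr : ∀ v, exG.Reachable v 0 := by
    have r1 : exG.Reachable 1 0 := SimpleGraph.Adj.reachable (by decide)
    have r2 : exG.Reachable 2 0 := (SimpleGraph.Adj.reachable (by decide : exG.Adj 2 1)).trans r1
    have r3 : exG.Reachable 3 0 := SimpleGraph.Adj.reachable (by decide)
    have r4 : exG.Reachable 4 0 := (SimpleGraph.Adj.reachable (by decide : exG.Adj 4 1)).trans r1
    have r5 : exG.Reachable 5 0 := (SimpleGraph.Adj.reachable (by decide : exG.Adj 5 2)).trans r2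
    have r6 : exG.Reachable 6 0 := (SimpleGraph.Adj.reachable (by decide : exG.Adj 6 5)).trans r5
    have r7 : exG.Reachable 7 0 := (SimpleGraph.Adj.reachable (by decide : exG.Adj 7 6)).trans r6
    intro v
    fin_cases v
    · exact SimpleGraph.Reachable.refl 0
    · exact r1
    · exact r2
    · exact r3
    · exact r4
    · exact r5
    · exact r6
    · exact r7
  have : Nonempty (Fin 8) := ⟨0⟩
  exact ⟨fun u v => (hr u).trans (hr v).symm⟩

/-- The 4-cycle of the example. -/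
def cyc : exG.Walk 0 0 :=
  .cons (by decide : exG.Adj 0 1) (.cons (by decide : exG.Adj 1 2)
    (.cons (by decide : exG.Adj 2 3) (.cons (by decide : exG.Adj 3 0) .nil)))

theorem cyc_isCycle : cyc.IsCycle := by
  rw [SimpleGraph.Walk.isCycle_def]
  refine ⟨?_, ?_, ?_⟩
  · rw [SimpleGraph.Walk.isTrail_def]
    decide
  · simp [cyc]
  · decide

/-- In a cycle every vertex has two distinct neighbours on the cycle. -/
theorem two_nbrs {V : Type} {G : SimpleGraph V} {v : V} {d : G.Walk v v} (hd : d.IsCycle) {w : V}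
    (hw : w ∈ d.support) : ∃ x y, x ≠ y ∧ G.Adj w x ∧ G.Adj w y ∧ x ∈ d.support ∧ y ∈ d.support ∧
      s(w, x) ∈ d.edges ∧ s(w, y) ∈ d.edges := by
  have h := hd.ncard_neighborSet_toSubgraph_eq_two hw
  rw [Set.ncard_eq_two] at h
  obtain ⟨x, y, hxy, hs⟩ := h
  have hx : x ∈ d.toSubgraph.neighborSet w := by rw [hs]; simp
  have hy : y ∈ d.toSubgraph.neighborSet w := by rw [hs]; simp
  have hx' : d.toSubgraph.Adj w x := hx
  have hy' : d.toSubgraph.Adj w y := hy
  refine ⟨x, y, hxy, hx'.adj_sub, hy'.adj_sub, ?_, ?_, ?_, ?_⟩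
  · exact d.mem_verts_toSubgraph.1 (d.toSubgraph.edge_vert hx'.symm)
  · exact d.mem_verts_toSubgraph.1 (d.toSubgraph.edge_vert hy'.symm)
  · exact SimpleGraph.Walk.adj_toSubgraph_iff_mem_edges.1 hx'
  · exact SimpleGraph.Walk.adj_toSubgraph_iff_mem_edges.1 hy'

theorem exG_cycles {v : Fin 8} {d : exG.Walk v v} (hd : d.IsCycle) (e : Sym2 (Fin 8)) :
    e ∈ d.edges ↔ e ∈ cyc.edges := by
  have n4 : (4 : Fin 8) ∉ d.support := by
    intro h
    obtain ⟨x, y, hxy, hx, hy, -⟩ := two_nbrs hd h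
    revert x y
    decide
  have n7 : (7 : Fin 8) ∉ d.support := by
    intro h
    obtain ⟨x, y, hxy, hx, hy, -⟩ := two_nbrs hd h
    revert x y
    decide
  have n6 : (6 : Fin 8) ∉ d.support := by
    intro h
    obtain ⟨x, y, hxy, hx, hy, hxs, hys, -⟩ := two_nbrs hd h
    have hx7 : x ≠ 7 := fun h => n7 (h ▸ hxs)
    have hy7 : y ≠ 7 := fun h => n7 (h ▸ hys)
    clear hxs hys
    revert x y
    decide
  have n5 : (5 : Fin 8) ∉ d.support := by
    intro h
    obtain ⟨x, y, hxy, hx, hy, hxs, hys, -⟩ := two_nbrs hd h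
    have hx7 : x ≠ 6 := fun h => n6 (h ▸ hxs)
    have hy7 : y ≠ 6 := fun h => n6 (h ▸ hys)
    clear hxs hys
    revert x y
    decide
  have h0 : (0 : Fin 8) ∈ d.support → s((0 : Fin 8), 1) ∈ d.edges ∧ s((3 : Fin 8), 0) ∈ d.edges := by
    intro h
    obtain ⟨x, y, hxy, hx, hy, hxs, hys, hex, hey⟩ := two_nbrs hd h
    have key : (x = 1 ∧ y = 3) ∨ (x = 3 ∧ y = 1) := by
      clear hxs hys hex hey
      revert x y
      decide
    rcases key with ⟨rfl, rfl⟩ | ⟨rfl, rfl⟩
    · exact ⟨hex, Sym2.eq_swap ▸ hey⟩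
    · exact ⟨hey, Sym2.eq_swap ▸ hex⟩
  have h1 : (1 : Fin 8) ∈ d.support → s((0 : Fin 8), 1) ∈ d.edges ∧ s((1 : Fin 8), 2) ∈ d.edges := by
    intro h
    obtain ⟨x, y, hxy, hx, hy, hxs, hys, hex, hey⟩ := two_nbrs hd h
    have hx4 : x ≠ 4 := fun h => n4 (h ▸ hxs)
    have hy4 : y ≠ 4 := fun h => n4 (h ▸ hys)
    have key : (x = 0 ∧ y = 2) ∨ (x = 2 ∧ y = 0) := by
      clear hxs hys hex hey
      revert x y
      decide
    rcases key with ⟨rfl, rfl⟩ | ⟨rfl, rfl⟩
    · exact ⟨Sym2.eq_swap ▸ hex, hey⟩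
    · exact ⟨Sym2.eq_swap ▸ hey, hex⟩
  have h2 : (2 : Fin 8) ∈ d.support → s((1 : Fin 8), 2) ∈ d.edges ∧ s((2 : Fin 8), 3) ∈ d.edges := by
    intro h
    obtain ⟨x, y, hxy, hx, hy, hxs, hys, hex, hey⟩ := two_nbrs hd h
    have hx4 : x ≠ 5 := fun h => n5 (h ▸ hxs)
    have hy4 : y ≠ 5 := fun h => n5 (h ▸ hys)
    have key : (x = 1 ∧ y = 3) ∨ (x = 3 ∧ y = 1) := by
      clear hxs hys hex hey
      revert x y
      decide
    rcases key with ⟨rfl, rfl⟩ | ⟨rfl, rfl⟩
    · exact ⟨Sym2.eq_swap ▸ hex, hey⟩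
    · exact ⟨Sym2.eq_swap ▸ hey, hex⟩
  have h3 : (3 : Fin 8) ∈ d.support → s((2 : Fin 8), 3) ∈ d.edges ∧ s((3 : Fin 8), 0) ∈ d.edges := by
    intro h
    obtain ⟨x, y, hxy, hx, hy, hxs, hys, hex, hey⟩ := two_nbrs hd h
    have key : (x = 2 ∧ y = 0) ∨ (x = 0 ∧ y = 2) := by
      clear hxs hys hex hey
      revert x y
      decide
    rcases key with ⟨rfl, rfl⟩ | ⟨rfl, rfl⟩
    · exact ⟨Sym2.eq_swap ▸ hex, hey⟩
    · exact ⟨Sym2.eq_swap ▸ hey, hex⟩
  have sup : ∀ a b : Fin 8, s(a, b) ∈ d.edges → a ∈ d.support ∧ b ∈ d.support := fun a b h =>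
    ⟨d.fst_mem_support_of_mem_edges h, d.snd_mem_support_of_mem_edges h⟩
  have all : s((0 : Fin 8), 1) ∈ d.edges ∧ s((1 : Fin 8), 2) ∈ d.edges ∧
      s((2 : Fin 8), 3) ∈ d.edges ∧ s((3 : Fin 8), 0) ∈ d.edges := by
    have hv : v ∈ d.support := d.start_mem_support
    have c0 : (0 : Fin 8) ∈ d.support → s((0 : Fin 8), 1) ∈ d.edges ∧ s((1 : Fin 8), 2) ∈ d.edges ∧
      s((2 : Fin 8), 3) ∈ d.edges ∧ s((3 : Fin 8), 0) ∈ d.edges := by
      intro h
      have a := h0 h
      have b := h1 (sup _ _ a.1).2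
      have c := h2 (sup _ _ b.2).2
      exact ⟨a.1, b.2, c.2, a.2⟩
    fin_cases v
    · exact c0 hv
    · exact c0 (sup _ _ (h1 hv).1).1
    · exact c0 (sup _ _ (h1 (sup _ _ (h2 hv).1).1).1).1
    · exact c0 (sup _ _ (h3 hv).2).2
    · exact absurd hv n4
    · exact absurd hv n5
    · exact absurd hv n6
    · exact absurd hv n7
  constructor
  · intro he
    induction e using Sym2.ind with
    | _ a b =>
      have hab := d.adj_of_mem_edges he
      have ha := (sup _ _ he).1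
      have hb := (sup _ _ he).2
      have a4 : a ≠ 4 := fun h => n4 (h ▸ ha)
      have a5 : a ≠ 5 := fun h => n5 (h ▸ ha)
      have a6 : a ≠ 6 := fun h => n6 (h ▸ ha)
      have a7 : a ≠ 7 := fun h => n7 (h ▸ ha)
      have b4 : b ≠ 4 := fun h => n4 (h ▸ hb)
      have b5 : b ≠ 5 := fun h => n5 (h ▸ hb)
      have b6 : b ≠ 6 := fun h => n6 (h ▸ hb)
      have b7 : b ≠ 7 := fun h => n7 (h ▸ hb)
      clear ha hb he
      revert a b
      decide
  · intro he
    have : e = s((0 : Fin 8), 1) ∨ e = s((1 : Fin 8), 2) ∨ e = s((2 : Fin 8), 3) ∨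
        e = s((3 : Fin 8), 0) := by
      simpa [cyc] using he
    rcases this with rfl | rfl | rfl | rfl
    · exact all.1
    · exact all.2.1
    · exact all.2.2.1
    · exact all.2.2.2

theorem exG_unicyclic : Unicyclic exG :=
  ⟨exG_connected, 0, cyc, cyc_isCycle, fun _ _ hd e => exG_cycles hd e⟩

theorem exG_length {v : Fin 8} {d : exG.Walk v v} (hd : d.IsCycle) : d.length = 4 := by
  have h1 : d.edges.toFinset = cyc.edges.toFinset := by
    ext e
    simpa using exG_cycles hd e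
  have h2 : d.edges.Nodup := hd.isTrail.edges_nodup
  rw [← SimpleGraph.Walk.length_edges, ← List.toFinset_card_of_nodup h2, h1]
  decide

theorem exG_girth : exG.girth = 4 := by
  have : exG.egirth = 4 := by
    apply le_antisymm
    · have := SimpleGraph.egirth_le_length cyc_isCycle
      simpa [cyc] using this
    · rw [SimpleGraph.le_egirth]
      intro a w hw
      rw [exG_length hw]
      norm_num
  rw [SimpleGraph.girth, this]
  rfl

instance (m n : ℕ) : DecidableRel (tadpole m n).Adj := by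
  unfold tadpole
  infer_instance

/-- Only one vertex of `T_{4,4}` has three distinct neighbours. -/
theorem tadpole44_deg : ∀ a b c e : Fin (4 + 4), (tadpole 4 4).Adj a b → (tadpole 4 4).Adj a c →
    (tadpole 4 4).Adj a e → b ≠ c → b ≠ e → c ≠ e → a = 3 := by
  decide

/-- Only one vertex of `T_{5,3}` has three distinct neighbours. -/
theorem tadpole53_deg : ∀ a b c e : Fin (5 + 3), (tadpole 5 3).Adj a b → (tadpole 5 3).Adj a c →
    (tadpole 5 3).Adj a e → b ≠ c → b ≠ e → c ≠ e → a = 4 := by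
  decide

/-- An isomorphism from `exG` to a graph with at most one vertex having three distinct neighbours
is impossible. -/
theorem no_iso {V : Type} {H : SimpleGraph V} (z : V)
    (h : ∀ a b c e : V, H.Adj a b → H.Adj a c → H.Adj a e → b ≠ c → b ≠ e → c ≠ e → a = z)
    (f : exG ≃g H) : False := by
  have h1 : f 1 = z := h (f 1) (f 0) (f 2) (f 4) (f.map_adj_iff.2 (by decide))
    (f.map_adj_iff.2 (by decide)) (f.map_adj_iff.2 (by decide))
    (fun h => absurd (f.injective h) (by decide)) (fun h => absurd (f.injective h) (by decide))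
    (fun h => absurd (f.injective h) (by decide))
  have h2 : f 2 = z := h (f 2) (f 1) (f 3) (f 5) (f.map_adj_iff.2 (by decide))
    (f.map_adj_iff.2 (by decide)) (f.map_adj_iff.2 (by decide))
    (fun h => absurd (f.injective h) (by decide)) (fun h => absurd (f.injective h) (by decide))
    (fun h => absurd (f.injective h) (by decide))
  exact absurd (f.injective (h1.trans h2.symm)) (by decide)

theorem exG_not_tadpole4 (n : ℕ) : IsEmpty (exG ≃g tadpole 4 n) := by
  constructor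
  intro f
  have hc := Fintype.card_congr f.toEquiv
  simp only [Fintype.card_fin] at hc
  have hn : n = 4 := by omega
  subst hn
  exact no_iso (3 : Fin (4 + 4)) tadpole44_deg f

theorem exG_not_tadpole5 (n : ℕ) : IsEmpty (exG ≃g tadpole 5 n) := by
  constructor
  intro f
  have hc := Fintype.card_congr f.toEquiv
  simp only [Fintype.card_fin] at hc
  have hn : n = 3 := by omega
  subst hn
  exact no_iso (4 : Fin (5 + 3)) tadpole53_deg f

theorem exG_not_cycle (n : ℕ) (hn : n ≠ 8) : IsEmpty (exG ≃g SimpleGraph.cycleGraph n) := by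
  constructor
  intro f
  have hc := Fintype.card_congr f.toEquiv
  simp only [Fintype.card_fin] at hc
  omega

/-- **Answer to Q1: yes.** There is a unicyclic graph of girth `4` all of whose matrices have the
Strong Spectral Property and that is isomorphic neither to `C₄` or `C₅` nor to any tadpole
`T_{4,n}` or `T_{5,n}` (`n ≥ 0`). The graph is `exG`, with eight vertices: the 4-cycle with
pendant paths of lengths one and three attached at two adjacent cycle vertices. -/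
theorem result :
    Unicyclic exG ∧ exG.girth = 4 ∧ GSSP exG ∧
      IsEmpty (exG ≃g SimpleGraph.cycleGraph 4) ∧ IsEmpty (exG ≃g SimpleGraph.cycleGraph 5) ∧
      (∀ n, IsEmpty (exG ≃g tadpole 4 n)) ∧ ∀ n, IsEmpty (exG ≃g tadpole 5 n) :=
  ⟨exG_unicyclic, exG_girth, exG_gssp, exG_not_cycle 4 (by norm_num), exG_not_cycle 5 (by norm_num),
    exG_not_tadpole4, exG_not_tadpole5⟩

end Pool.Agent.Results.MP_3aeeeb_co.UnicyclicSSP
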